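import Pool.Agent.DF.Main
import Pool.Agent.NOne.BrConv

/-!
# MP_74f563_an, Q1 for autonomous systems with two degrees of freedom: strict convexity of `α` implies
integrability

For every real-analytic Tonelli Lagrangian on `𝕋² × ℝ²` which does not depend on time, with
complete Euler-Lagrange flow: if Mather's function `α` is strictly convex (in particular if it is
analytic with positive second derivative) then the system is completely integrable: the energy and
a second first integral of class `C^∞` are in involution and independent on an open dense set.

* Block V (`DV`, any number of degrees of freedom): minimal curves of free duration above the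
  minimum of `α`, continuity of the minimal cost, the corner gain, `α(c) ≤ E` iff the closed curves
  have nonnegative cost;
* Part A (`DA`, `DO`): for every energy `E > min α` and every primitive class `h` the minimal closed
  orbits of class `h` and energy `E` pass through every point, once; their velocities are dense in the
  energy level (`DA.CI`);
* Part B (`DB`, `DC`): near every such foliation there are bands of invariant tori, a KAM theorem
  without Diophantine condition with the energy as a parameter (`DB.band`);
* Part D (`DF`): the label of the tori of a band is a smooth first integral of the whole system
  (extended by a constant); a generic sum of such integrals is independent of the energy on an open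
  dense set (`DF.glue`, `DF.ci_two`).
-/

set_option autoImplicit false

namespace Pool.Agent.Results.MP_74f563_an.AutonomousTwo

open Set Pool.Agent.MechAlpha Pool.Agent.NOne

theorem result (L : Torus 2 → Vec 2 → UnitAddCircle → ℝ) (hL : Tonelli L)
    (hA : ∀ x v s t, L x v s = L x v t)
    (φ : ℝ → Phase 2 → Phase 2) (hφ : IsELFlow L φ)
    (h : StrictConvexOn ℝ univ (alpha L φ) ∨
      (AnalyticOnNhd ℝ (alpha L φ) univ ∧
        ∀ c w : Vec 2, w ≠ 0 → 0 < fderiv ℝ (fderiv ℝ (alpha L φ)) c w w)) :
    CompletelyIntegrable L φ :=
  Pool.Agent.DF.auto_two hL hA hφ (h.elim id fun h => strictConvex_of_pos h.1 h.2)

end Pool.Agent.Results.MP_74f563_an.AutonomousTwo
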