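import Pool.Agent.LRig.Main
import Pool.Agent.NOne.BrAl
import Pool.Agent.NOne.BrConv

/-!
# MP_74f563_an, Q1 for every number of degrees of freedom, near the flat Lagrangians

For every `n`, every invertible matrix `S` and every `σ > 0` there is `ε > 0` such that every
time-periodic Tonelli Lagrangian on `𝕋ⁿ × ℝⁿ × 𝕋` which is `ε`-close to `|S v|²/2` on the strip of
width `σ` and whose Mather function `α` is strictly convex is completely integrable (with first
integrals of class `C^∞`).

* Files `F*`, `I*`, `N*`, `J*`: a Newton scheme for the family of all invariant tori (all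
  frequencies, resonant ones included), without Diophantine conditions;
* files `V*`, `R*`: the resonant terms vanish if `α` is strictly convex (pendulum-like
  Lagrangians, closed orbits of nearly flat Lagrangians);
* files `L*`: Legendre transform;
* files `Z*`: the frequency, flattened at the resonances, gives `n` commuting smooth integrals.
-/

set_option autoImplicit false

namespace Pool.Agent.Results.MP_74f563_an.LocalAllN

open Set Pool.Agent.MechAlpha Pool.Agent.NOne Pool.Agent.LRig

theorem result (n : ℕ) (S : Vec n ≃L[ℝ] Vec n) {σ : ℝ} (hσ : 0 < σ) :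
    ∃ ε : ℝ, 0 < ε ∧ ∀ (L : Torus n → Vec n → UnitAddCircle → ℝ) (φ : ℝ → Phase n → Phase n),
      Tonelli L → IsELFlow L φ → NearFlat S σ ε L →
        (StrictConvexOn ℝ univ (alpha L φ) ∨
          (AnalyticOnNhd ℝ (alpha L φ) univ ∧
            ∀ c w : Vec n, w ≠ 0 → 0 < fderiv ℝ (fderiv ℝ (alpha L φ)) c w w)) →
          CompletelyIntegrable L φ := by
  obtain ⟨ε, hε, h⟩ := local_main n S hσ
  exact ⟨ε, hε, fun L φ _ hφ hL ha =>
    h L φ hL hφ (ha.elim id fun h => strictConvex_of_pos h.1 h.2)⟩

end Pool.Agent.Results.MP_74f563_an.LocalAllN
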