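import Pool.Agent.MechAlpha.Liouville

/-!
# MP_74f563_an: Mather's function of mechanical Lagrangians on flat tori

Question Q1 is answered (yes) for all autonomous mechanical Lagrangians `|S v|²/2 - V(x)` on
`𝕋ⁿ`, in all dimensions `n`: if Mather's function `α` is analytic, or only strictly convex, then
`V` is constant, the velocities are first integrals and the system is completely integrable.  If `V`
is not constant then `α` has flat pieces at all high energies.
-/

set_option autoImplicit false

namespace Pool.Agent.Results.MP_74f563_an.MechanicalAlpha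

open Set Pool.Agent.MechAlpha

theorem result {n : ℕ} (S : Vec n ≃L[ℝ] Vec n) (V : Torus n → ℝ)
    (hV : ContDiff ℝ 2 fun x : Vec n => V (proj x)) (φ : ℝ → Phase n → Phase n)
    (hφ : IsELFlow (mech S V) φ) :
    ((∃ x y, V x ≠ V y) → ∃ (k : Fin n → ℤ) (c : Vec n) (s T₀ : ℝ), k ≠ 0 ∧ (2 ≤ n → c ≠ 0) ∧
      0 < s ∧ ∀ T ≥ T₀, ∀ r : ℝ, |r| ≤ s →
        alpha (mech S V) φ (T • c + r • zv k) = alpha (mech S V) φ (T • c)) ∧
    ((StrictConvexOn ℝ univ (alpha (mech S V) φ) ∨
        AnalyticOnNhd ℝ (alpha (mech S V) φ) univ) →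
      (∀ x y, V x = V y) ∧ (∀ s z, (φ s z).2.1 = z.2.1) ∧ CompletelyIntegrable (mech S V) φ) := by
  refine ⟨fun h => main hV hφ h, fun h => ?_⟩
  have hc := constant hV hφ h
  exact ⟨hc, velocity hV hφ hc, integrable_of_constant hV hφ hc⟩

end Pool.Agent.Results.MP_74f563_an.MechanicalAlpha
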