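import Pool.Agent.NOne.AL8d
import Pool.Agent.NOne.BMain
import Pool.Agent.NOne.DInt
import Pool.Agent.NOne.BrAl
import Pool.Agent.NOne.BrConv
import Pool.Agent.NOne.BrInt

/-!
# MP_74f563_an, Q1 for one degree of freedom: strict convexity of `α` implies integrability

For every real-analytic time-periodic Tonelli Lagrangian on `𝕋 × ℝ × 𝕋` with complete
Euler-Lagrange flow: if Mather's function `α` is strictly convex (in particular if it is analytic
with positive second derivative) then the system is completely integrable, with a first integral of
class `C^∞`.

* Part A (files `A*`): for strictly convex `α` the minimal periodic orbits of every rational rotation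
  number pass through every point (`C⁰`-integrability, `exists_c0i`);
* Parts B, C (files `B*`, `K*`): near every rational curve the time-`q` map has an analytic family of
  invariant curves: a KAM theorem without Diophantine condition (`hasBands`);
* Part D (files `D*`): the rotation number, flattened, is a smooth first integral (`exists_fint`);
* the bridge to Mather's function (files `Br*`).
-/

set_option autoImplicit false

namespace Pool.Agent.Results.MP_74f563_an.OneDegree

open Set Pool.Agent.MechAlpha Pool.Agent.NOne

theorem result (L : Torus 1 → Vec 1 → UnitAddCircle → ℝ) (hL : Tonelli L)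
    (φ : ℝ → Phase 1 → Phase 1) (hφ : IsELFlow L φ)
    (h : StrictConvexOn ℝ univ (alpha L φ) ∨
      (AnalyticOnNhd ℝ (alpha L φ) univ ∧
        ∀ c w : Vec 1, w ≠ 0 → 0 < fderiv ℝ (fderiv ℝ (alpha L φ)) c w w)) :
    CompletelyIntegrable L φ := by
  have h1 : StrictConvexOn ℝ univ (alpha L φ) := h.elim id fun h => strictConvex_of_pos h.1 h.2
  obtain ⟨V, hV⟩ := exists_c0i (ton_lft hL hφ) (al_ok hL hφ) (strictConvex_ev h1)
  obtain ⟨F, O, hF⟩ := exists_fint hV (hasBands hV)
  exact ci_of_fint hL hφ hF

end Pool.Agent.Results.MP_74f563_an.OneDegree
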